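import Pool.Agent.Lib.MP_ed311f_ag.A1
import Pool.Agent.Lib.MP_ed311f_ag.M1
import Pool.Agent.Lib.MP_ed311f_ag.M2
import Pool.Agent.Lib.MP_ed311f_ag.M3ab
import Pool.Agent.Lib.MP_ed311f_ag.M3cd
import Pool.Agent.Lib.MP_ed311f_ag.M3e
import Pool.Agent.Lib.MP_ed311f_ag.M3f
import Pool.Agent.Lib.MP_ed311f_ag.M4
import Pool.Agent.Lib.MP_ed311f_ag.MVUnip
import Pool.Agent.Lib.MP_ed311f_ag.EulerProof
import Pool.Agent.Lib.MP_ed311f_ag.EulerAll
import Pool.Agent.Lib.MP_ed311f_ag.EP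
import Pool.Agent.Lib.MP_ed311f_ag.E1
import Pool.Agent.Lib.MP_ed311f_ag.E4
import Pool.Agent.Lib.MP_ed311f_ag.Final
import Pool.Agent.Lib.MP_ed311f_ag.Toric.Assemble
import Pool.Agent.Lib.MP_ed311f_ag.Toric.Ta
import Pool.Agent.Lib.MP_ed311f_ag.Toric.Tb
import Pool.Agent.Lib.MP_ed311f_ag.Toric.Tc
import Pool.Agent.Lib.MP_ed311f_ag.Toric.Td
import Pool.Agent.Lib.MP_ed311f_ag.Toric.Te
import Pool.Agent.Lib.MP_ed311f_ag.Toric.Tf
import Pool.Agent.Lib.MP_ed311f_ag.Toric.Tg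
import Pool.Agent.Lib.MP_ed311f_ag.Toric.Th

/-!
# The holomorphy conjecture for twisted topological zeta functions fails

For `f = y (x² + w z² + y w² + y³ w)` on affine 4-space, all eigenvalues of the monodromy on the
cohomology of the Milnor fibres have order dividing 6, but the twisted topological zeta function
`Z^{(4)}_top(s)` has a pole at `s = -1`.
-/

open HoloConj

/-- The negated form of the conjecture, with `X = 𝔸⁴` and `e = 4`. -/
theorem Pool.Agent.Results.MP_ed311f_ag.HolomorphyFails.result :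
    ∃ f : MvPolynomial (Fin 4) ℂ, (∀ c : ℂ, f ≠ MvPolynomial.C c) ∧
    (∀ x : Fin 4 → ℂ, MvPolynomial.eval x f = 0 → ∀ (q : ℕ) (μ : ℂ),
      IsMonodromyEigenvalue (fun v => MvPolynomial.eval v f) x q μ → ¬ 4 ∣ orderOf μ) ∧
    ∃ R : EmbeddedResolution f,
      ¬ ∃ p : Polynomial ℚ, algebraMap (Polynomial ℚ) (RatFunc ℚ) p = R.twistedZeta 4 := by
  have hP := HoloConj.EP.ep eulerAPI
  have h5 := HoloConj.EP.e5 eulerAPI
  have hE : EulerStatement := euler_all eulerAPI h5 hP (HoloConj.E4.e4 eulerAPI hP h5)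
    (HoloConj.E1.e1 eulerAPI hP h5)
  have hM : MonodromyStatement := monodromy_of_pieces m1 (m3a m2) (m3b m2) (m3c m2) (m3d m2)
    (m3e m2) (m3f m2) (m4 mvUnip)
  have hT : ToricStatement := Toric.toric_of_core Toric.toricCore (Toric.tb _) (Toric.tc _)
    (Toric.td _) (Toric.te _ _) (Toric.tf _ _) (Toric.tg _) (Toric.th _)
  exact final hM (a1 hE hT)
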